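import Pool.Agent.Work.MP_0b5d1f_cd.Interface
import Pool.Agent.Work.MP_0b5d1f_al.Final2

set_option autoImplicit false
set_option linter.unusedSectionVars false

/-!
# Block CORE: the cocycles of degree `3` are coboundaries
-/

namespace Pool.Agent.Work.MP_0b5d1f_cd

open Pool.Agent.Serre Pool.Agent.Work.MP_0b5d1f_ae

namespace CORE

variable {p : ℕ} {X F : Type} [Group F] [TopologicalSpace F]
  [IsTopologicalGroup F] [CompactSpace F] [T2Space F] [TotallyDisconnectedSpace F] {ι : X → F}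

/-- the derivation `h ↦ h f(·, a, b) - f(·, a, b)` -/
theorem u_der {U : Subgroup F} (hUo : IsOpen (U : Set F)) (hUn : U.Normal)
    {f : F → F → F → ZMod p}
    (hf : ∀ a b c, ∀ u ∈ U, f (a * u) b c = f a b c ∧ f a (b * u) c = f a b c ∧
      f a b (c * u) = f a b c) (a b : F) :
    IsDer U p (fun h y => f (h⁻¹ * y) a b - f y a b) where
  mul g h x := by
    have e : (g * h)⁻¹ * x = h⁻¹ * (g⁻¹ * x) := by group
    simp only [e]
    ring
  inv g x u hu := by
    show f (g⁻¹ * (x * u)) a b - f (x * u) a b = f (g⁻¹ * x) a b - f x a b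
    rw [← mul_assoc, (hf _ a b u hu).1, (hf x a b u hu).1]
  cont := ⟨U, hUo, hUn, fun w hw x => by
    have e : w⁻¹ * x = x * (x⁻¹ * w⁻¹ * x) := by group
    have hw' : x⁻¹ * w⁻¹ * x ∈ U := by simpa using hUn.conj_mem _ (U.inv_mem hw) x⁻¹
    show f (w⁻¹ * x) a b - f x a b = 0
    rw [e, (hf x a b _ hw').1, sub_self]⟩

theorem G1_exists (hp : p.Prime) (hF : FreeProP p ι) {U : Subgroup F}
    (hUo : IsOpen (U : Set F)) (hUn : U.Normal) {f : F → F → F → ZMod p}
    (hf : ∀ a b c, ∀ u ∈ U, f (a * u) b c = f a b c ∧ f a (b * u) c = f a b c ∧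
      f a b (c * u) = f a b c) :
    ∃ G1 : F → F → F → ZMod p, (∀ a, IsDer U p (G1 a)) ∧
      ∀ a x y, G1 a (ι x) y = f (ι x)⁻¹ y a - f 1 y a := by
  have h : ∀ a : F, ∃ δ : F → F → ZMod p, IsDer U p δ ∧
      ∀ x, δ (ι x) = fun y => f (ι x)⁻¹ y a - f 1 y a := by
    intro a
    refine der_exists' hp hF hUo hUn (fun x y => f (ι x)⁻¹ y a - f 1 y a) ?_ ?_
    · intro x y u hu
      show f (ι x)⁻¹ (y * u) a - f 1 (y * u) a = f (ι x)⁻¹ y a - f 1 y a
      rw [(hf _ y a u hu).2.1, (hf 1 y a u hu).2.1]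
    · refine (hF.conv (U : Set F) hUo (one_mem _)).subset ?_
      intro x hx hx2
      apply hx
      funext y
      have e : (ι x)⁻¹ = 1 * (ι x)⁻¹ := (one_mul _).symm
      show f (ι x)⁻¹ y a - f 1 y a = 0
      rw [e, (hf 1 y a _ (U.inv_mem hx2)).1, sub_self]
  choose G1 h1 h2 using h
  exact ⟨G1, h1, fun a x y => by rw [h2]⟩

theorem der_one {V : Subgroup F} {δ : F → F → ZMod p} (hδ : IsDer V p δ) (y : F) :
    δ 1 y = 0 := by
  have := hδ.mul 1 1 y
  simpa using this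

/-- a derivation which kills `v` kills the closed normal subgroup generated by `v` -/
theorem der_kill {V : Subgroup F} (hVo : IsOpen (V : Set F)) (hVn : V.Normal)
    {δ : F → F → ZMod p} (hδ : IsDer V p δ) {v : F} (hvV : v ∈ V) (h0 : ∀ y, δ v y = 0) :
    ∀ n ∈ ncl v, ∀ y, δ n y = 0 := by
  have h1 := der_one hδ
  let K : Subgroup F :=
    { carrier := {n | n ∈ V ∧ ∀ y, δ n y = 0}
      one_mem' := ⟨one_mem _, h1⟩
      mul_mem' := by
        rintro a b ⟨ha, ha'⟩ ⟨hb, hb'⟩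
        exact ⟨mul_mem ha hb, fun y => by rw [hδ.mul, ha', hb', add_zero]⟩
      inv_mem' := by
        rintro a ⟨ha, ha'⟩
        refine ⟨inv_mem ha, fun y => ?_⟩
        have := hδ.mul a a⁻¹ (a * y)
        rw [mul_inv_cancel, h1, ha', inv_mul_cancel_left, zero_add] at this
        exact this.symm }
  have hKn : K.Normal := by
    constructor
    rintro n ⟨hn, hn'⟩ g
    refine ⟨hVn.conj_mem n hn g, fun y => ?_⟩
    rw [hδ.mul, hδ.mul, hn']
    have e : (g * n)⁻¹ * y = g⁻¹ * y * (y⁻¹ * g * n⁻¹ * (y⁻¹ * g)⁻¹) := by group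
    have hm : y⁻¹ * g * n⁻¹ * (y⁻¹ * g)⁻¹ ∈ V := hVn.conj_mem _ (V.inv_mem hn) (y⁻¹ * g)
    rw [e, hδ.inv g⁻¹ (g⁻¹ * y) _ hm, add_zero]
    have := hδ.mul g g⁻¹ y
    rw [mul_inv_cancel, h1] at this
    exact this.symm
  have hKo : IsOpen (K : Set F) := by
    obtain ⟨W, hW, hWn, hW0⟩ := hδ.cont
    refine Subgroup.isOpen_mono (H₁ := W ⊓ V) ?_ (hW.inter hVo)
    rintro w ⟨hw1, hw2⟩
    exact ⟨hw2, hW0 w hw1⟩
  intro n hn y
  have hle : ncl v ≤ K := ncl_le hKn (Subgroup.isClosed_of_isOpen _ hKo) ⟨hvV, h0⟩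
  exact (hle hn).2 y

end CORE

open CORE in
/-- the general form: only the surjectivity of the restriction to the conjugates of `v` is used -/
theorem core_gen {p : ℕ} [hp : Fact p.Prime] {X F : Type} [Group F] [TopologicalSpace F]
    [IsTopologicalGroup F] [CompactSpace F] [T2Space F] [TotallyDisconnectedSpace F] {ι : X → F}
    (hF : FreeProP p ι) {v : F}
    (hs : ∀ f' ∈ LC p (ncl v), (v = 1 → ∀ g, f' g = 0) →
      ∃ ψ : F → ZMod p, IsChar (ncl v) p ψ ∧ ∀ g, ψ (g⁻¹ * v * g) = f' g)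
    {U : Subgroup F} (hUo : IsOpen (U : Set F)) (hUn : U.Normal) (hNU : ncl v ≤ U)
    {f : F → F → F → ZMod p}
    (hf : ∀ a b c, ∀ u ∈ U, f (a * u) b c = f a b c ∧ f a (b * u) c = f a b c ∧
      f a b (c * u) = f a b c)
    (hc : ∀ a b c d, f b c d - f (a * b) c d + f a (b * c) d - f a b (c * d) + f a b c = 0) :
    ∃ k : F → F → ZMod p, (∀ a b, ∀ n ∈ ncl v, k (a * n) b = k a b ∧ k a (b * n) = k a b) ∧
      (∀ a b, ∃ W : Subgroup F, IsOpen (W : Set F) ∧
        ∀ u ∈ W, ∀ w ∈ W, k (a * u) (b * w) = k a b) ∧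
      ∀ a b c, f a b c = k b c - k (a * b) c + k a (b * c) - k a b := by
  obtain ⟨G1, h1, h2⟩ := G1_exists hp.out hF hUo hUn hf
  have hinv : ∀ a, ∀ u ∈ U, G1 (a * u) = G1 a := by
    intro a u hu
    refine der_unique' hp.out hF hUo hUn (h1 _) (h1 _) fun x => ?_
    funext y
    rw [h2, h2, (hf _ y a u hu).2.2, (hf 1 y a u hu).2.2]
  have hstar : ∀ a b h y,
      G1 b h (y * a) - G1 (a * b) h y + G1 a h y = f (h⁻¹ * y) a b - f y a b := by
    intro a b h y
    have hl : IsDer U p ((fun h y => G1 b h (y * a)) + ((-1 : ZMod p) • G1 (a * b)) + G1 a) :=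
      (((h1 b).rho hUn a).add ((h1 (a * b)).smul (-1))).add (h1 a)
    have hE := der_unique' hp.out hF hUo hUn hl (u_der hUo hUn hf a b) (by
      intro x
      funext y
      show G1 b (ι x) (y * a) + (-1 : ZMod p) • G1 (a * b) (ι x) y + G1 a (ι x) y =
        f ((ι x)⁻¹ * y) a b - f y a b
      rw [h2, h2, h2, smul_eq_mul]
      have c1 := hc (ι x)⁻¹ y a b
      have c2 := hc 1 y a b
      rw [one_mul] at c2
      linear_combination c1 - c2)
    have := congrFun (congrFun hE h) y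
    have h3 : G1 b h (y * a) + (-1 : ZMod p) • G1 (a * b) h y + G1 a h y =
        f (h⁻¹ * y) a b - f y a b := this
    rw [smul_eq_mul] at h3
    linear_combination h3
  have hv : v ∈ ncl v := mem_ncl v
  have hvU : v ∈ U := hNU hv
  have hc2 : ∀ a x, G1 a v x = G1 (x * a) v 1 - G1 x v 1 := by
    intro a x
    have h3 := hstar x a v 1
    have e : v⁻¹ * 1 = 1 * v⁻¹ := by group
    rw [e, (hf 1 x a _ (U.inv_mem hvU)).1, one_mul] at h3
    linear_combination h3
  have hc2LC : (fun x => G1 x v 1) ∈ LC p (ncl v) := by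
    refine ⟨fun g n hn => ?_, U, hUo, hUn, fun g n hn => ?_⟩
    · show G1 (g * n) v 1 = G1 g v 1
      rw [hinv g n (hNU hn)]
    · show G1 (g * n) v 1 = G1 g v 1
      rw [hinv g n hn]
  obtain ⟨ψ, hψ, hψ2⟩ := hs _ hc2LC (fun hv1 g => by
    subst hv1
    exact der_one (h1 g) 1)
  obtain ⟨H, hHo, hHn, hNH, δ, hδ, hδψ⟩ := shapiro (ncl_normal v) hψ
  have hδv : ∀ g, δ v g = G1 g v 1 := by
    intro g
    have h3 : g⁻¹ * v * g ∈ ncl v := by
      simpa using (ncl_normal v).conj_mem v hv g⁻¹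
    rw [← hδ.conj_val (ncl_normal v) hNH hv g, hδψ _ h3, hψ2]
  have hVo : IsOpen ((U ⊓ H : Subgroup F) : Set F) := hUo.inter hHo
  have hVn : (U ⊓ H : Subgroup F).Normal := inferInstance
  have hNV : ncl v ≤ U ⊓ H := le_inf hNU hNH
  let g' : F → F → F → ZMod p := fun b h y => G1 b h y - (δ h (y * b) - δ h y)
  have hg' : ∀ b, IsDer (U ⊓ H) p (g' b) := by
    intro b
    have h3 : IsDer (U ⊓ H) p (G1 b + ((-1 : ZMod p) • fun h y => δ h (y * b)) + δ) :=
      (((h1 b).mono inf_le_left).add (((hδ.rho hHn b).mono inf_le_right).smul (-1))).add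
        (hδ.mono inf_le_right)
    have h4 : g' b = G1 b + ((-1 : ZMod p) • fun h y => δ h (y * b)) + δ := by
      funext h y
      show G1 b h y - (δ h (y * b) - δ h y) = G1 b h y + (-1 : ZMod p) • δ h (y * b) + δ h y
      rw [smul_eq_mul]
      ring
    rw [h4]
    exact h3
  have hstar' : ∀ a b h y,
      g' b h (y * a) - g' (a * b) h y + g' a h y = f (h⁻¹ * y) a b - f y a b := by
    intro a b h y
    rw [← hstar a b h y]
    simp only [g', mul_assoc]
    ring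
  have hg'v : ∀ b y, g' b v y = 0 := by
    intro b y
    simp only [g']
    rw [hc2, hδv, hδv]
    ring
  have hg'N : ∀ b, ∀ n ∈ ncl v, ∀ y, g' b n y = 0 := fun b =>
    der_kill hVo hVn (hg' b) (hNV hv) (hg'v b)
  have hg'inv : ∀ b, ∀ n ∈ U ⊓ H, g' (b * n) = g' b := by
    intro b n hn
    funext h y
    simp only [g']
    rw [hinv b n hn.1, ← mul_assoc y b n, hδ.inv h (y * b) n hn.2]
  have hg'a : ∀ b a u, u ∈ U ⊓ H → g' b (a * u) (a * u) = g' b a a + g' b u 1 := by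
    intro b a u hu
    rw [(hg' b).inv (a * u) a u hu, (hg' b).mul, inv_mul_cancel]
  refine ⟨fun a b => f 1 a b + g' b a a, ?_, ?_, ?_⟩
  · intro a b n hn
    refine ⟨?_, ?_⟩
    · show f 1 (a * n) b + g' b (a * n) (a * n) = f 1 a b + g' b a a
      rw [(hf 1 a b n (hNU hn)).2.1, hg'a b a n (hNV hn), hg'N b n hn, add_zero]
    · show f 1 a (b * n) + g' (b * n) a a = f 1 a b + g' b a a
      rw [(hf 1 a b n (hNU hn)).2.2, hg'inv b n (hNV hn)]
  · intro a b
    obtain ⟨W, hWo, -, hW0⟩ := (hg' b).cont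
    refine ⟨W ⊓ (U ⊓ H), hWo.inter hVo, ?_⟩
    rintro u ⟨hu1, hu2⟩ w ⟨-, hw2⟩
    show f 1 (a * u) (b * w) + g' (b * w) (a * u) (a * u) = f 1 a b + g' b a a
    rw [(hf 1 (a * u) b w hw2.1).2.2, (hf 1 a b u hu2.1).2.1, hg'inv b w hw2, hg'a b a u hu2,
      hW0 u hu1, add_zero]
  · intro a b c
    show f a b c = (f 1 b c + g' c b b) - (f 1 (a * b) c + g' c (a * b) (a * b)) +
      (f 1 a (b * c) + g' (b * c) a a) - (f 1 a b + g' b a a)
    have e1 : g' c (a * b) (a * b) = g' c a (a * b) + g' c b b := by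
      rw [(hg' c).mul, inv_mul_cancel_left]
    have e2 := hstar' b c a a
    rw [inv_mul_cancel] at e2
    have e3 := hc 1 a b c
    rw [one_mul] at e3
    rw [e1]
    linear_combination e2 + e3

theorem p_CORE : Stmt_CORE := by
  intro p hp X F _ _ _ _ _ _ ι hF v ψ0 hgood hψ0 hne U hUo hUn hNU f hf hc
  exact core_gen hF (fun f' hf' _ =>
    surj_conj hp.out hF (ncl_normal v) hgood (mem_ncl v) hψ0 hne hf') hUo hUn hNU hf hc

end Pool.Agent.Work.MP_0b5d1f_cd
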