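import Pool.Agent.Work.MP_0b5d1f_cd.Interface

set_option autoImplicit false

namespace Pool.Agent.Work.MP_0b5d1f_cd

open Pool.Agent.Serre Pool.Agent.Work.MP_0b5d1f_ae

namespace DZ

theorem dz3 (p : ℕ) {G : Type} [Group G] (f : (Fin 3 → G) → ZMod p) (a b c d : G) :
    dz p 3 f ![a, b, c, d] =
      f ![b, c, d] - f ![a * b, c, d] + f ![a, b * c, d] - f ![a, b, c * d] + f ![a, b, c] := by
  have e : (fun i : Fin 3 => (![a, b, c, d] : Fin 4 → G) i.succ) = ![b, c, d] := by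
    ext i; fin_cases i <;> rfl
  have e0 : Fin.contractNth (0 : Fin 4) (· * ·) ![a, b, c, d] = ![a * b, c, d] := by
    ext i; fin_cases i <;> rfl
  have e1 : Fin.contractNth (1 : Fin 4) (· * ·) ![a, b, c, d] = ![a, b * c, d] := by
    ext i; fin_cases i <;> rfl
  have e2 : Fin.contractNth (2 : Fin 4) (· * ·) ![a, b, c, d] = ![a, b, c * d] := by
    ext i; fin_cases i <;> rfl
  have e3 : Fin.contractNth (3 : Fin 4) (· * ·) ![a, b, c, d] = ![a, b, c] := by
    ext i; fin_cases i <;> rfl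
  unfold dz
  rw [e, Fin.sum_univ_four, e0, e1, e2, e3]
  simp only [Fin.val_zero, Fin.val_one, Fin.val_two]
  have h3 : (((3 : Fin 4) : ℕ)) = 3 := rfl
  rw [h3]
  ring

theorem dz2 (p : ℕ) {G : Type} [Group G] (k : (Fin 2 → G) → ZMod p) (a b c : G) :
    dz p 2 k ![a, b, c] = k ![b, c] - k ![a * b, c] + k ![a, b * c] - k ![a, b] := by
  have e : (fun i : Fin 2 => (![a, b, c] : Fin 3 → G) i.succ) = ![b, c] := by
    ext i; fin_cases i <;> rfl
  have e0 : Fin.contractNth (0 : Fin 3) (· * ·) ![a, b, c] = ![a * b, c] := by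
    ext i; fin_cases i <;> rfl
  have e1 : Fin.contractNth (1 : Fin 3) (· * ·) ![a, b, c] = ![a, b * c] := by
    ext i; fin_cases i <;> rfl
  have e2 : Fin.contractNth (2 : Fin 3) (· * ·) ![a, b, c] = ![a, b] := by
    ext i; fin_cases i <;> rfl
  unfold dz
  rw [e, Fin.sum_univ_three, e0, e1, e2]
  simp only [Fin.val_zero, Fin.val_one, Fin.val_two]
  ring

end DZ

theorem p_DZ : Stmt_DZ := by
  intro p G _
  refine ⟨fun f hf a b c d => ?_, fun k f hk => ?_⟩
  · rw [← DZ.dz3, hf]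
    rfl
  · funext g
    have hg : g = ![g 0, g 1, g 2] := by
      ext i; fin_cases i <;> rfl
    rw [hg, DZ.dz2, hk]

end Pool.Agent.Work.MP_0b5d1f_cd
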