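import Pool.Agent.Work.MP_0b5d1f_cd.Interface

set_option autoImplicit false

namespace Pool.Agent.Work.MP_0b5d1f_cd

theorem p_TOP : Stmt_TOP := by
  intro p F _ _ _ N _ k hN hW
  have key : ∀ a b a' b' : F, (a : F ⧸ N) = (a' : F ⧸ N) → (b : F ⧸ N) = (b' : F ⧸ N) →
      k a b = k a' b' := by
    intro a b a' b' ha hb
    have h1 : a⁻¹ * a' ∈ N := QuotientGroup.eq.1 ha
    have h2 : b⁻¹ * b' ∈ N := QuotientGroup.eq.1 hb
    have h3 := (hN a b _ h1).1
    have h4 := (hN a' b _ h2).2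
    rw [mul_inv_cancel_left] at h3 h4
    rw [← h3, ← h4]
  refine ⟨fun q => k (q 0).out (q 1).out, ?_, fun a b => ?_⟩
  · rw [IsLocallyConstant.iff_exists_open]
    intro q
    obtain ⟨W, hWo, hWk⟩ := hW (q 0).out (q 1).out
    have hop : ∀ a : F, IsOpen ((QuotientGroup.mk : F → F ⧸ N) '' ((fun u => a * u) '' (W : Set F))) :=
      fun a => QuotientGroup.isOpenMap_coe _ (isOpenMap_mul_left a _ hWo)
    refine ⟨{q' | q' 0 ∈ (QuotientGroup.mk : F → F ⧸ N) '' ((fun u => (q 0).out * u) '' (W : Set F))} ∩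
      {q' | q' 1 ∈ (QuotientGroup.mk : F → F ⧸ N) '' ((fun u => (q 1).out * u) '' (W : Set F))},
      ?_, ?_, ?_⟩
    · exact ((hop _).preimage (continuous_apply 0)).inter ((hop _).preimage (continuous_apply 1))
    · refine ⟨⟨(q 0).out, ⟨1, W.one_mem, mul_one _⟩, QuotientGroup.out_eq' _⟩,
        ⟨(q 1).out, ⟨1, W.one_mem, mul_one _⟩, QuotientGroup.out_eq' _⟩⟩
    · rintro q' ⟨⟨_, ⟨u, hu, rfl⟩, h0⟩, ⟨_, ⟨w, hw, rfl⟩, h1⟩⟩
      change k (q' 0).out (q' 1).out = k (q 0).out (q 1).out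
      rw [← hWk u hu w hw]
      apply key
      · rw [QuotientGroup.out_eq']
        exact h0.symm
      · rw [QuotientGroup.out_eq']
        exact h1.symm
  · apply key
    · exact QuotientGroup.out_eq' _
    · exact QuotientGroup.out_eq' _

end Pool.Agent.Work.MP_0b5d1f_cd
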