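import Pool.Agent.Work.MP_0b5d1f_cd.Interface

set_option autoImplicit false

open Topology

namespace Pool.Agent.Work.MP_0b5d1f_cd

theorem p_UNI : Stmt_UNI := by
  intro p F _ _ _ _ _ _ N hN f hf
  let G : F × F × F → ZMod p :=
    fun t => f ![(t.1 : F ⧸ N), (t.2.1 : F ⧸ N), (t.2.2 : F ⧸ N)]
  have hcont : Continuous
      (fun t : F × F × F => ![(t.1 : F ⧸ N), (t.2.1 : F ⧸ N), (t.2.2 : F ⧸ N)]) := by
    refine continuous_pi fun i => ?_
    fin_cases i
    · exact QuotientGroup.continuous_mk.comp continuous_fst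
    · exact QuotientGroup.continuous_mk.comp (continuous_fst.comp continuous_snd)
    · exact QuotientGroup.continuous_mk.comp (continuous_snd.comp continuous_snd)
  have hG : IsLocallyConstant G := hf.comp_continuous hcont
  let S : Set ((F × F × F) × (F × F × F)) := {q | G (q.1 * q.2) = G q.1}
  have hS : IsOpen S := by
    have h1 : IsLocallyConstant
        (fun q : (F × F × F) × (F × F × F) => (G (q.1 * q.2), G q.1)) :=
      (hG.comp_continuous (continuous_fst.mul continuous_snd)).prodMk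
        (hG.comp_continuous continuous_fst)
    exact h1 {z | z.1 = z.2}
  have hSu : (Set.univ : Set (F × F × F)) ×ˢ ({1} : Set (F × F × F)) ⊆ S := by
    rintro ⟨q1, q2⟩ ⟨-, h2⟩
    have h3 : q2 = 1 := h2
    show G (q1 * q2) = G q1
    rw [h3, mul_one]
  obtain ⟨u, w, hu, hw, hu1, hw1, huw⟩ :=
    generalized_tube_lemma isCompact_univ isCompact_singleton hS hSu
  have h1w : (1 : F × F × F) ∈ w := hw1 rfl
  let O : Set F := {g | ((g, 1, 1) : F × F × F) ∈ w} ∩
    ({g | ((1, g, 1) : F × F × F) ∈ w} ∩ {g | ((1, 1, g) : F × F × F) ∈ w})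
  have hO : IsOpen O := by
    refine IsOpen.inter ?_ (IsOpen.inter ?_ ?_)
    · exact hw.preimage (f := fun g : F => ((g, 1, 1) : F × F × F)) (by fun_prop)
    · exact hw.preimage (f := fun g : F => ((1, g, 1) : F × F × F)) (by fun_prop)
    · exact hw.preimage (f := fun g : F => ((1, 1, g) : F × F × F)) (by fun_prop)
  have h1O : (1 : F) ∈ O := ⟨h1w, h1w, h1w⟩
  obtain ⟨U0, hU0⟩ := ProfiniteGrp.exist_openNormalSubgroup_sub_open_nhds_of_one hO h1O
  have hU0n : (U0.toSubgroup).Normal := U0.isNormal'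
  have hopen : IsOpen ((U0.toSubgroup ⊔ N : Subgroup F) : Set F) :=
    Subgroup.isOpen_mono le_sup_left U0.isOpen'
  have hgen : ∀ (t : F × F × F) (s : F × F × F), s ∈ w → G (t * s) = G t := by
    intro t s hs
    exact huw (show (t, s) ∈ u ×ˢ w from ⟨hu1 trivial, hs⟩)
  have hmk : ∀ (a u0 n : F), n ∈ N → ((a * (u0 * n) : F) : F ⧸ N) = ((a * u0 : F) : F ⧸ N) := by
    intro a u0 n hn
    rw [QuotientGroup.eq]
    have : (a * (u0 * n))⁻¹ * (a * u0) = n⁻¹ := by group
    rw [this]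
    exact N.inv_mem hn
  refine ⟨U0.toSubgroup ⊔ N, hopen, inferInstance, le_sup_right, ?_⟩
  intro a b c v hv
  obtain ⟨u0, hu0, n, hn, rfl⟩ := Subgroup.mem_sup_of_normal_right.1 hv
  have hu0' : u0 ∈ O := hU0 hu0
  refine ⟨?_, ?_, ?_⟩
  · rw [hmk a u0 n hn]
    have := hgen (a, b, c) (u0, 1, 1) hu0'.1
    simpa [G] using this
  · rw [hmk b u0 n hn]
    have := hgen (a, b, c) (1, u0, 1) hu0'.2.1
    simpa [G] using this
  · rw [hmk c u0 n hn]
    have := hgen (a, b, c) (1, 1, u0) hu0'.2.2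
    simpa [G] using this

end Pool.Agent.Work.MP_0b5d1f_cd
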