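import Pool.Agent.Work.MP_0b5d1f_cd.Interface
import Pool.Agent.Work.MP_0b5d1f_cd.B_CORE
import Pool.Agent.Work.MP_0b5d1f_cd.B_UNI
import Pool.Agent.Work.MP_0b5d1f_cd.B_TOP
import Pool.Agent.Work.MP_0b5d1f_cd.B_DZ
import Pool.Agent.Work.MP_0b5d1f_al.Final2

set_option autoImplicit false
set_option linter.unusedSectionVars false

/-!
# The dichotomy with the vanishing of `H^3`
-/

namespace Pool.Agent.Work.MP_0b5d1f_cd

open Pool.Agent.Serre Pool.Agent.Work.MP_0b5d1f_ae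

/-- `H^3(F/v^F, F_p) = 0` for the elements `v` of the structure theorem -/
theorem hz_of_struct {p : ℕ} [hp : Fact p.Prime] {X F : Type} [Group F] [TopologicalSpace F]
    [IsTopologicalGroup F] [CompactSpace F] [T2Space F] [TotallyDisconnectedSpace F] {ι : X → F}
    (hF : FreeProP p ι) {v : F} (hgood : Good p (ncl v))
    (hcase : v = 1 ∨ ∃ ψ0 : F → ZMod p, IsChar (ncl v) p ψ0 ∧ ψ0 v ≠ 0) :
    HZ p (F ⧸ ncl v) 2 := by
  have hs : ∀ f' ∈ LC p (ncl v), (v = 1 → ∀ g, f' g = 0) →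
      ∃ ψ : F → ZMod p, IsChar (ncl v) p ψ ∧ ∀ g, ψ (g⁻¹ * v * g) = f' g := by
    intro f' hf' h0
    rcases hcase with h1 | ⟨ψ0, hψ0, hne⟩
    · refine ⟨fun _ => 0, ⟨fun _ _ _ _ => (add_zero _).symm, ⊤, isOpen_univ, inferInstance,
        fun _ _ _ => rfl⟩, fun g => (h0 h1 g).symm⟩
    · exact surj_conj hp.out hF (ncl_normal v) hgood (mem_ncl v) hψ0 hne hf'
  intro f hf hdf
  obtain ⟨U, hUo, hUn, hNU, hUf⟩ := p_UNI p F (ncl v) f hf
  obtain ⟨k, hk1, hk2, hk3⟩ := core_gen hF hs hUo hUn hNU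
    (f := fun a b c => f ![(a : F ⧸ ncl v), (b : F ⧸ ncl v), (c : F ⧸ ncl v)])
    (fun a b c u hu => hUf a b c u hu)
    (fun a b c d => (p_DZ p (F ⧸ ncl v)).1 f hdf (a : F ⧸ ncl v) (b : F ⧸ ncl v)
      (c : F ⧸ ncl v) (d : F ⧸ ncl v))
  obtain ⟨k', hk'l, hk'⟩ := p_TOP p F (ncl v) k hk1 hk2
  refine ⟨k', hk'l, (p_DZ p (F ⧸ ncl v)).2 k' f ?_⟩
  intro a b c
  induction a using QuotientGroup.induction_on with
  | H a =>
  induction b using QuotientGroup.induction_on with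
  | H b =>
  induction c using QuotientGroup.induction_on with
  | H c =>
  have h := hk3 a b c
  rw [← hk', ← hk', ← hk', ← hk'] at h
  exact h

theorem hz_congr {p : ℕ} {F : Type} [Group F] [TopologicalSpace F] {N N' : Subgroup F}
    [N.Normal] [N'.Normal] (h : N = N') (h' : HZ p (F ⧸ N) 2) : HZ p (F ⧸ N') 2 := by
  subst h
  exact h'

/-- the main theorem with the vanishing of `H^3` -/
theorem main3 {p : ℕ} (hp : p.Prime) {X F : Type} [Group F] [TopologicalSpace F]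
    [IsTopologicalGroup F] [CompactSpace F] [T2Space F] [TotallyDisconnectedSpace F] {ι : X → F}
    (hF : FreeProP p ι) (r : F) :
    (NoZeroDiv p (ncl r) ∧ TorsionFreeMod (ncl r) ∧ HZ p (F ⧸ ncl r) 2) ∨
    ∃ (v : F) (k : ℕ), 1 ≤ k ∧
      r ∈ ncl v ∧
      (v ^ (p ^ k))⁻¹ * r ∈ (⁅ncl v, ncl v⁆ : Subgroup F).topologicalClosure ∧
      NoZeroDiv p (ncl v) ∧ TorsionFreeMod (ncl v) ∧ HZ p (F ⧸ ncl v) 2 ∧
      (∀ L : Subgroup F, PolyTF L → r ∈ L → v ∈ L) ∧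
      (∀ i : ℕ, r ∈ cds F i → v ∈ cds F i) ∧
      ∀ x : F, x ∉ ncl r → x ^ p ∈ ncl r →
        (ncl (x ^ p) = ncl r ↔ r ∈ ncl x) ∧
        (ncl (x ^ p) = ncl r ↔
          x ∉ ncl r ⊔ (⁅ncl v, ncl v⁆ : Subgroup F).topologicalClosure) := by
  have := Fact.mk hp
  obtain ⟨v, k, hgood, hr, hrc, hcase, hk0, hmin⟩ := min_struct hp hF r
  have htf : TorsionFreeMod (ncl v) := fun g n hn h =>
    hgood.torsionFree (ncl_normal v) (ncl_closed v) g n hn h
  have hnzd : NoZeroDiv p (ncl v) := hgood.noZeroDiv hp (ncl_normal v)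
  have hz : HZ p (F ⧸ ncl v) 2 := hz_of_struct hF hgood hcase
  rcases Nat.eq_zero_or_pos k with rfl | hk
  · left
    refine ⟨?_, ?_, hz_congr (hk0 rfl) hz⟩
    · rw [← hk0 rfl]
      exact hnzd
    · rw [← hk0 rfl]
      exact htf
  · rcases hcase with rfl | ⟨ψ0, hψ0, hne⟩
    · -- `r = 1`
      left
      have h1 : ncl (1 : F) = ncl r := le_antisymm (ncl_mono (one_mem _)) (ncl_mono hr)
      refine ⟨?_, ?_, hz_congr h1 hz⟩
      · rw [← h1]
        exact hnzd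
      · rw [← h1]
        exact htf
    · right
      refine ⟨v, k, hk, hr, hrc, hnzd, htf, hz, hmin, fun i hi => hmin _ (polyTF_cds hp hF i) hi,
        fun x hx hxp => ?_⟩
      have hxv : x ∈ ncl v := htf x p hp.pos (ncl_mono hr hxp)
      refine ⟨⟨fun h => ?_, fun h => thmA hp hF hx hxp h⟩, ⟨fun h hmem => ?_, fun h => ?_⟩⟩
      · have h2 : ncl (x ^ p) ≤ ncl x := ncl_mono ((ncl x).pow_mem (mem_ncl x) p)
        exact h2 (h ▸ mem_ncl r)
      · exact torsion_good hp hF hgood hψ0 hne hr hrc hmem h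
      · by_contra hbad
        exact h (torsion_bad hp hF hk hgood hψ0 hne hr hrc hxv hxp hbad)

/-- the normal form of a relator, with the vanishing of `H^3` -/
theorem normal_form {p : ℕ} (hp : p.Prime) {X F : Type} [Group F] [TopologicalSpace F]
    [IsTopologicalGroup F] [CompactSpace F] [T2Space F] [TotallyDisconnectedSpace F] {ι : X → F}
    (hF : FreeProP p ι) (r : F) :
    ∃ (v : F) (k : ℕ), r ∈ ncl v ∧
      (v ^ (p ^ k))⁻¹ * r ∈ (⁅ncl v, ncl v⁆ : Subgroup F).topologicalClosure ∧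
      NoZeroDiv p (ncl v) ∧ TorsionFreeMod (ncl v) ∧ HZ p (F ⧸ ncl v) 2 ∧
      (k = 0 → ncl v = ncl r) := by
  have := Fact.mk hp
  obtain ⟨v, k, hgood, hr, hrc, hcase, hk0, -⟩ := min_struct hp hF r
  exact ⟨v, k, hr, hrc, hgood.noZeroDiv hp (ncl_normal v),
    fun g n hn h => hgood.torsionFree (ncl_normal v) (ncl_closed v) g n hn h,
    hz_of_struct hF hgood hcase, hk0⟩

end Pool.Agent.Work.MP_0b5d1f_cd
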