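import Pool.Agent.Work.MP_0b5d1f_cd.Interface
import Pool.Agent.Work.MP_0b5d1f_ae.B_M

set_option autoImplicit false

/-!
# Block MG: outside the kernels the relator can be replaced by one with a character
-/

namespace Pool.Agent.Work.MP_0b5d1f_cd

open Pool.Agent.Serre Pool.Agent.Work.MP_0b5d1f_ae
open Pool.Agent.Work.MP_0b5d1f_ae.BM

/-- **Block MG.** -/
theorem p_MG (hA : S_A) (hC : S_C) (hD : S_D) : Stmt_MG := by
  intro p hp X F _ _ _ _ _ _ ι hF x1 x2 r n h12 hK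
  classical
  obtain ⟨v, k, hgood, -, hrc, hcase, hk0, hL⟩ := min_struct hp.out hF r
  by_cases hdone : k = 0 ∧ v ≠ 1
  · rcases hcase with h | h
    · exact absurd h hdone.2
    · exact ⟨v, hk0 hdone.1, hgood, h⟩
  exfalso
  -- in the remaining cases `r` lies in one of the kernels
  have hkill : ∀ Φ : F →* Wr p n, IsOpen (Φ.ker : Set F) → (Φ v).right = 1 → r ∈ Φ.ker := by
    intro Φ hΦ hv
    rcases Nat.eq_zero_or_pos k with hk | hk
    · have hv1 : v = 1 := by
        by_contra hne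
        exact hdone ⟨hk, hne⟩
      have h1 : r ∈ ncl v := by
        rw [hk0 hk]
        exact mem_ncl r
      rw [hv1] at h1
      exact ncl_le Φ.normal_ker (Subgroup.isClosed_of_isOpen _ hΦ) (one_mem _) h1
    · exact kill_r Φ hΦ hk hv hrc
  obtain ⟨χ, hχ, hr0, hoth, hcase2⟩ := hD p X F ι hF x1 x2 r h12
  obtain ⟨L, hLP, hLm⟩ := hC p F χ hχ
  have hv0 : χ v = 0 := (hLm v).1 (hL L hLP ((hLm r).2 hr0))
  obtain ⟨hfin, hcard, -⟩ := hA p n hp.out
  have : NeZero (p ^ n) := ⟨pow_ne_zero n hp.out.ne_zero⟩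
  have hcy : Nat.card (Cy p n) = p ^ n := by
    rw [Nat.card_congr Multiplicative.toAdd, Nat.card_zmod]
  have key : ∀ y1 y2 : X, y1 ≠ y2 → χ (ι y1) = 1 → (∀ y, y ≠ y1 → y ≠ y2 → χ (ι y) = 0) →
      ∃ (b : ZMod (p ^ n)) (Φ : F →* Wr p n), IsOpen (Φ.ker : Set F) ∧
        (∀ y, y ≠ y1 → y ≠ y2 → Φ (ι y) = 1) ∧ Φ (ι y1) = wa p n 1 ∧ Φ (ι y2) = wd p n b ∧
        r ∈ Φ.ker := by
    intro y1 y2 hy h1 h0
    set b : ZMod (p ^ n) := PadicInt.toZModPow n (χ (ι y2)) with hb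
    set f : X → Wr p n := fun y => if y = y1 then wa p n 1 else if y = y2 then wd p n b else 1
      with hf
    have hf1 : f y1 = wa p n 1 := by simp [hf]
    have hf2 : f y2 = wd p n b := by simp [hf, hy.symm]
    have hf3 : ∀ y, y ≠ y1 → y ≠ y2 → f y = 1 := by
      intro y e1 e2
      simp [hf, e1, e2]
    have hfs : {x : X | f x ≠ 1}.Finite := by
      refine (Set.toFinite ({y1, y2} : Set X)).subset ?_
      intro y hy'
      by_contra hc
      rw [Set.mem_insert_iff, Set.mem_singleton_iff, not_or] at hc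
      exact hy' (hf3 y hc.1 hc.2)
    obtain ⟨Φ, ⟨hΦo, hΦ⟩, -⟩ := hF.univ (Wr p n) ⟨_, hcard⟩ f hfs
    have hΦ1 : Φ (ι y1) = wa p n 1 := by rw [hΦ, hf1]
    have hΦ2 : Φ (ι y2) = wd p n b := by rw [hΦ, hf2]
    have hΦ3 : ∀ y, y ≠ y1 → y ≠ y2 → Φ (ι y) = 1 := by
      intro y hy1 hy2
      rw [hΦ, hf3 y hy1 hy2]
    refine ⟨b, Φ, hΦo, hΦ3, hΦ1, hΦ2, ?_⟩
    have hright : (RegularWreathProduct.rightHom : Wr p n →* Cy p n).comp Φ = red hχ n := by
      have hfs' : {x : X | (f x).right ≠ 1}.Finite := by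
        refine hfs.subset ?_
        intro y hy' hc
        exact hy' (by rw [hc]; rfl)
      refine (hF.univ (Cy p n) ⟨n, hcy⟩ (fun y => (f y).right) hfs').unique ⟨?_, ?_⟩ ⟨?_, ?_⟩
      · refine Subgroup.isOpen_mono ?_ hΦo
        intro g hg
        rw [MonoidHom.mem_ker, MonoidHom.comp_apply, MonoidHom.mem_ker.1 hg, map_one]
      · intro y
        rw [MonoidHom.comp_apply, hΦ]
        rfl
      · exact red_open hχ n
      · intro y
        rw [red_apply]
        by_cases e1 : y = y1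
        · subst e1
          rw [h1, map_one, hf1]
          rfl
        · by_cases e2 : y = y2
          · subst e2
            rw [hf2]
            rfl
          · rw [h0 y e1 e2, map_zero, hf3 y e1 e2]
            rfl
    have hvr : (Φ v).right = 1 := by
      have h2 : (Φ v).right = red hχ n v := by
        rw [← hright]
        rfl
      rw [h2, red_apply, hv0, map_zero, ofAdd_zero]
    exact hkill Φ hΦo hvr
  rcases hcase2 with h1 | h1
  · obtain ⟨b, Φ, ho, h3, ha, hd, hr⟩ := key x1 x2 h12 h1 hoth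
    exact hK Φ.ker ⟨b, Φ, ho, rfl, h3, Or.inl ⟨ha, hd⟩⟩ hr
  · obtain ⟨b, Φ, ho, h3, ha, hd, hr⟩ := key x2 x1 h12.symm h1 (fun y e1 e2 => hoth y e2 e1)
    exact hK Φ.ker ⟨b, Φ, ho, rfl, fun y e1 e2 => h3 y e2 e1, Or.inr ⟨ha, hd⟩⟩ hr

end Pool.Agent.Work.MP_0b5d1f_cd
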