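import Pool.Agent.Work.MP_0b5d1f_cd.Interface
import Pool.Agent.Work.MP_0b5d1f_cd.B_CORE
import Pool.Agent.Work.MP_0b5d1f_cd.B_MG
import Pool.Agent.Work.MP_0b5d1f_cd.B_UNI
import Pool.Agent.Work.MP_0b5d1f_cd.B_TOP
import Pool.Agent.Work.MP_0b5d1f_cd.B_DZ
import Pool.Agent.Work.MP_0b5d1f_ae.Final

set_option autoImplicit false

/-!
# Almost every one-relator pro-`p` group is torsion-free, of cohomological dimension at most `2`
-/

open MeasureTheory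

namespace Pool.Agent.Work.MP_0b5d1f_cd

open Pool.Agent.Serre Pool.Agent.Work.MP_0b5d1f_ae

/-- a one-relator group with a domain as completed group algebra has `H^3 = 0` -/
theorem cd_of_good (hC : Stmt_CORE) (hU : Stmt_UNI) (hT : Stmt_TOP) (hD : Stmt_DZ)
    (p : ℕ) [Fact p.Prime] (X F : Type) [Group F] [TopologicalSpace F]
    [IsTopologicalGroup F] [CompactSpace F] [T2Space F] [TotallyDisconnectedSpace F] (ι : X → F)
    (hF : FreeProP p ι) (v : F) (hgood : Good p (ncl v)) (ψ0 : F → ZMod p)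
    (hψ0 : IsChar (ncl v) p ψ0) (hne : ψ0 v ≠ 0) : HZ p (F ⧸ ncl v) 2 := by
  intro f hf hdf
  obtain ⟨U, hUo, hUn, hNU, hUf⟩ := hU p F (ncl v) f hf
  obtain ⟨k, hk1, hk2, hk3⟩ := hC p X F ι hF v ψ0 hgood hψ0 hne U hUo hUn hNU
    (fun a b c => f ![(a : F ⧸ ncl v), (b : F ⧸ ncl v), (c : F ⧸ ncl v)])
    (fun a b c u hu => hUf a b c u hu)
    (fun a b c d => (hD p (F ⧸ ncl v)).1 f hdf (a : F ⧸ ncl v) (b : F ⧸ ncl v) (c : F ⧸ ncl v)
      (d : F ⧸ ncl v))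
  obtain ⟨k', hk'l, hk'⟩ := hT p F (ncl v) k hk1 hk2
  refine ⟨k', hk'l, (hD p (F ⧸ ncl v)).2 k' f ?_⟩
  intro a b c
  induction a using QuotientGroup.induction_on with
  | H a =>
  induction b using QuotientGroup.induction_on with
  | H b =>
  induction c using QuotientGroup.induction_on with
  | H c =>
  have h := hk3 a b c
  rw [← hk', ← hk', ← hk', ← hk'] at h
  exact h

theorem final (p : ℕ) (hp : p.Prime) (X F : Type) [Group F] [TopologicalSpace F]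
    [IsTopologicalGroup F] [CompactSpace F] [T2Space F] [TotallyDisconnectedSpace F] (ι : X → F)
    (hF : FreeProP p ι) (x1 x2 : X) (h12 : x1 ≠ x2) :
    (∀ (r : F) (n : ℕ), (∀ K ∈ Ks p n ι x1 x2, r ∉ K) →
        NoZeroDiv p (ncl r) ∧ TorsionFreeMod (ncl r) ∧ HZ p (F ⧸ ncl r) 2) ∧
      (∀ n : ℕ, (Ks p n ι x1 x2).Finite ∧ (Ks p n ι x1 x2).ncard ≤ 2 * p ^ n ∧
        ∀ K ∈ Ks p n ι x1 x2, K.Normal ∧ IsOpen (K : Set F) ∧ K.index = p ^ (p ^ n + n)) ∧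
      ∃ E : Set F, E = {r : F | ∀ n : ℕ, ∃ K ∈ Ks p n ι x1 x2, r ∈ K} ∧
        IsClosed E ∧ Dense Eᶜ ∧
        ∀ (_ : MeasurableSpace F) (_ : BorelSpace F) (μ : Measure F),
          μ.IsHaarMeasure → μ E = 0 := by
  have := Fact.mk hp
  obtain ⟨h1, h2, h3⟩ := Pool.Agent.Work.MP_0b5d1f_ae.final p hp X F ι hF x1 x2 h12
  refine ⟨fun r n hr => ⟨(h1 r n hr).1, (h1 r n hr).2, ?_⟩, h2, h3⟩
  obtain ⟨v, hvr, hgood, ψ0, hψ0, hne⟩ :=
    p_MG p_A p_C (p_D p_B) p X F ι hF x1 x2 r n h12 hr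
  have h := cd_of_good p_CORE p_UNI p_TOP p_DZ p X F ι hF v hgood ψ0 hψ0 hne
  have e : ∀ (N N' : Subgroup F) [N.Normal] [N'.Normal], N = N' → HZ p (F ⧸ N) 2 →
      HZ p (F ⧸ N') 2 := by
    intro N N' _ _ h h'
    subst h
    exact h'
  exact e _ _ hvr h

end Pool.Agent.Work.MP_0b5d1f_cd
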