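import Mathlib
import Pool.Agent.Work.MP_0b5d1f_ae.Interface
import Pool.Agent.Work.MP_0b5d1f_al.Defs

set_option autoImplicit false

/-!
# Almost every one-relator pro-`p` group has cohomological dimension at most `2`
-/

open MeasureTheory

namespace Pool.Agent.Work.MP_0b5d1f_cd

open Pool.Agent.Serre Pool.Agent.Work.MP_0b5d1f_ae

/-- The differential of the complex of inhomogeneous cochains of `G` with values in the trivial
`G`-module `ZMod p`. -/
def dz (p : ℕ) {G : Type} [Group G] (n : ℕ) (f : (Fin n → G) → ZMod p) :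
    (Fin (n + 1) → G) → ZMod p :=
  fun g => f (fun i => g i.succ) +
    ∑ j : Fin (n + 1), (-1 : ZMod p) ^ ((j : ℕ) + 1) * f (Fin.contractNth j (· * ·) g)

/-- `H^(n+1)(G, ZMod p) = 0` (continuous cohomology): every locally constant cocycle is the
coboundary of a locally constant cochain. -/
def HZ (p : ℕ) (G : Type) [Group G] [TopologicalSpace G] (n : ℕ) : Prop :=
  ∀ f : (Fin (n + 1) → G) → ZMod p, IsLocallyConstant f → dz p (n + 1) f = 0 →
    ∃ k : (Fin n → G) → ZMod p, IsLocallyConstant k ∧ dz p n k = f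

instance nclNormal {F : Type} [Group F] [TopologicalSpace F] [IsTopologicalGroup F] (v : F) :
    (ncl v).Normal := Subgroup.is_normal_topologicalClosure _

/-- MG: outside the kernels the relator can be replaced by one with a character. -/
def Stmt_MG : Prop := ∀ (p : ℕ) [Fact p.Prime] (X F : Type) [Group F] [TopologicalSpace F]
  [IsTopologicalGroup F] [CompactSpace F] [T2Space F] [TotallyDisconnectedSpace F] (ι : X → F),
  FreeProP p ι → ∀ (x1 x2 : X) (r : F) (n : ℕ), x1 ≠ x2 → (∀ K ∈ Ks p n ι x1 x2, r ∉ K) →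
  ∃ v : F, ncl v = ncl r ∧ Good p (ncl v) ∧ ∃ ψ0 : F → ZMod p, IsChar (ncl v) p ψ0 ∧ ψ0 v ≠ 0

/-- CORE: the cocycles of degree `3` are coboundaries. -/
def Stmt_CORE : Prop := ∀ (p : ℕ) [Fact p.Prime] (X F : Type) [Group F] [TopologicalSpace F]
  [IsTopologicalGroup F] [CompactSpace F] [T2Space F] [TotallyDisconnectedSpace F] (ι : X → F),
  FreeProP p ι → ∀ (v : F) (ψ0 : F → ZMod p), Good p (ncl v) → IsChar (ncl v) p ψ0 → ψ0 v ≠ 0 →
  ∀ U : Subgroup F, IsOpen (U : Set F) → U.Normal → ncl v ≤ U → ∀ f : F → F → F → ZMod p,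
  (∀ a b c, ∀ u ∈ U, f (a * u) b c = f a b c ∧ f a (b * u) c = f a b c ∧
    f a b (c * u) = f a b c) →
  (∀ a b c d, f b c d - f (a * b) c d + f a (b * c) d - f a b (c * d) + f a b c = 0) →
  ∃ k : F → F → ZMod p, (∀ a b, ∀ n ∈ ncl v, k (a * n) b = k a b ∧ k a (b * n) = k a b) ∧
    (∀ a b, ∃ W : Subgroup F, IsOpen (W : Set F) ∧
      ∀ u ∈ W, ∀ w ∈ W, k (a * u) (b * w) = k a b) ∧
    ∀ a b c, f a b c = k b c - k (a * b) c + k a (b * c) - k a b

/-- UNI: a locally constant function is invariant under an open normal subgroup. -/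
def Stmt_UNI : Prop := ∀ (p : ℕ) (F : Type) [Group F] [TopologicalSpace F]
  [IsTopologicalGroup F] [CompactSpace F] [T2Space F] [TotallyDisconnectedSpace F]
  (N : Subgroup F) [N.Normal] (f : (Fin 3 → F ⧸ N) → ZMod p), IsLocallyConstant f →
  ∃ U : Subgroup F, IsOpen (U : Set F) ∧ U.Normal ∧ N ≤ U ∧
    ∀ a b c : F, ∀ u ∈ U,
      f ![((a * u : F) : F ⧸ N), (b : F ⧸ N), (c : F ⧸ N)] =
        f ![(a : F ⧸ N), (b : F ⧸ N), (c : F ⧸ N)] ∧
      f ![(a : F ⧸ N), ((b * u : F) : F ⧸ N), (c : F ⧸ N)] =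
        f ![(a : F ⧸ N), (b : F ⧸ N), (c : F ⧸ N)] ∧
      f ![(a : F ⧸ N), (b : F ⧸ N), ((c * u : F) : F ⧸ N)] =
        f ![(a : F ⧸ N), (b : F ⧸ N), (c : F ⧸ N)]

/-- TOP: descent of a function of two variables to the quotient. -/
def Stmt_TOP : Prop := ∀ (p : ℕ) (F : Type) [Group F] [TopologicalSpace F]
  [IsTopologicalGroup F] (N : Subgroup F) [N.Normal] (k : F → F → ZMod p),
  (∀ a b, ∀ n ∈ N, k (a * n) b = k a b ∧ k a (b * n) = k a b) →
  (∀ a b, ∃ W : Subgroup F, IsOpen (W : Set F) ∧ ∀ u ∈ W, ∀ w ∈ W, k (a * u) (b * w) = k a b) →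
  ∃ k' : (Fin 2 → F ⧸ N) → ZMod p, IsLocallyConstant k' ∧
    ∀ a b : F, k' ![(a : F ⧸ N), (b : F ⧸ N)] = k a b

/-- DZ: the differentials in degrees `2` and `3`. -/
def Stmt_DZ : Prop := ∀ (p : ℕ) (G : Type) [Group G],
  (∀ f : (Fin 3 → G) → ZMod p, dz p 3 f = 0 → ∀ a b c d : G,
    f ![b, c, d] - f ![a * b, c, d] + f ![a, b * c, d] - f ![a, b, c * d] + f ![a, b, c] = 0) ∧
  (∀ (k : (Fin 2 → G) → ZMod p) (f : (Fin 3 → G) → ZMod p),
    (∀ a b c : G, f ![a, b, c] = k ![b, c] - k ![a * b, c] + k ![a, b * c] - k ![a, b]) →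
    dz p 2 k = f)

end Pool.Agent.Work.MP_0b5d1f_cd
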